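import Pool.Agent.Helper380.SE.Half3

set_option autoImplicit false

/-!
# Exceptional eigenfunctions live on the first Fourier modes

Let `Γ` be a subgroup of finite index of `SL(2, ℤ)`, and let `N` be such that all conjugates of
`z ↦ z + N` are in `Γ` (for example `Γ(N) ≤ Γ`). Let `f` be a square integrable eigenfunction of the
hyperbolic Laplacian on `Γ \ ℍ` with eigenvalue `μ`. We bound the part of the squared norm of `f`
that is carried by the Fourier modes `|n| ≥ K` in the cusps: it is at most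
`3 μ N ^ 2 / (8 π ^ 2 K ^ 2)` times the squared norm. In particular, if the modes `|n| < K` vanish
at all cusps and `f ≠ 0` then `μ ≥ (8 π ^ 2 / 3) (K / N) ^ 2`.

The proof works on the half strip `|x| ≤ 1 / 2`, `y > 1 / 2`: the images of the standard
fundamental domain cover it at most three times, and the weight `min (1, 2 / y²)` on it counts
every point of the fundamental domain at least twice with respect to `dx dy / y²`.
-/

open MeasureTheory Set UpperHalfPlane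
open scoped Real MatrixGroups ENNReal

namespace Pool.Agent.Results.MP_a812b2_nt.FirstModesHalfStrip

/-- `f (γ w)`, for `γ ∈ SL(2, ℤ)` and `w` in the upper half plane. -/
noncomputable def translate (f : ℂ → ℂ) (γ : SL(2, ℤ)) (w : ℂ) : ℂ :=
  f (((γ 0 0 : ℂ) * w + (γ 0 1 : ℂ)) / ((γ 1 0 : ℂ) * w + (γ 1 1 : ℂ)))

/-- `f` is a smooth `Γ`-invariant function on the upper half plane that is square integrable on
`Γ \ ℍ` and satisfies `- y² (f_xx + f_yy) = μ f` (the clauses of the frozen statement). -/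
structure IsEigenfunction (Γ : Subgroup SL(2, ℤ)) (f : ℂ → ℂ) (μ : ℝ) : Prop where
  smooth : ContDiffOn ℝ (⊤ : ℕ∞) f {w : ℂ | 0 < w.im}
  invariant : ∀ γ ∈ Γ, ∀ z : ℍ, f ((γ • z : ℍ) : ℂ) = f (z : ℂ)
  equation : ∀ z : ℍ,
    -((z.im : ℂ) ^ 2) *
      (deriv (fun s : ℝ => deriv (fun t : ℝ => f ((t : ℂ) + (z.im : ℂ) * Complex.I)) s) z.re
        + deriv (fun s : ℝ => deriv (fun t : ℝ => f ((z.re : ℂ) + (t : ℂ) * Complex.I)) s) z.im)
      = (μ : ℂ) * f (z : ℂ)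
  integrable : ∀ γ : SL(2, ℤ), IntegrableOn (fun w : ℂ => ‖f w‖ ^ 2 / w.im ^ 2)
    ((fun z : ℍ => ((γ • z : ℍ) : ℂ)) '' ModularGroup.fd)

/-- The `n`-th Fourier coefficient of `x ↦ f (γ (x + i y))`, for the period `N`. -/
noncomputable def coefficient (f : ℂ → ℂ) (γ : SL(2, ℤ)) (N : ℕ) (n : ℤ) (y : ℝ) : ℂ :=
  1 / N * ∫ x in (0 : ℝ)..N,
    translate f γ (x + y * Complex.I) * Complex.exp (-(2 * π * Complex.I * n * x / N))

/-- `R` contains exactly one element of every class `Γ g`. -/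
def Representatives (Γ : Subgroup SL(2, ℤ)) (R : Finset SL(2, ℤ)) : Prop :=
  ∀ g : SL(2, ℤ), ∃! r : SL(2, ℤ), r ∈ R ∧ g * r⁻¹ ∈ Γ

/-- The integral of `|f|² dx dy / y²` over the union of the sets `r D`, `r ∈ R`, where `D` is the
standard fundamental domain of `SL(2, ℤ)`. -/
noncomputable def sqNorm (f : ℂ → ℂ) (R : Finset SL(2, ℤ)) : ℝ≥0∞ :=
  ∫⁻ w in {w : ℂ | |w.re| ≤ 1 / 2 ∧ 1 ≤ ‖w‖ ∧ 0 < w.im},
    ENNReal.ofReal ((∑ r ∈ R, ‖translate f r w‖ ^ 2) / w.im ^ 2)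

/-- The contribution of the Fourier modes `|n| < K` above the height `1 / 2` at the cusps `r ∞`,
`r ∈ R`, with the weight `min (1, 2 / y²)`. -/
noncomputable def sqNormLow (f : ℂ → ℂ) (R : Finset SL(2, ℤ)) (N K : ℕ) : ℝ≥0∞ :=
  ∫⁻ y in Ioi (1 / 2 : ℝ), ENNReal.ofReal
    (min 1 (2 / y ^ 2) * ∑ r ∈ R, ∑ n ∈ Finset.Ioo (-(K : ℤ)) K, ‖coefficient f r N n y‖ ^ 2)

lemma exists_reps (Γ : Subgroup SL(2, ℤ)) [Γ.FiniteIndex] :
    ∃ R : Finset SL(2, ℤ), Representatives Γ R := by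
  classical
  have : Fintype (SL(2, ℤ) ⧸ Γ) := Fintype.ofFinite _
  refine ⟨Finset.univ.image fun q : SL(2, ℤ) ⧸ Γ => (Quotient.out q)⁻¹, fun g => ?_⟩
  have key : ∀ q : SL(2, ℤ) ⧸ Γ, g * ((Quotient.out q)⁻¹)⁻¹ ∈ Γ ↔ (QuotientGroup.mk g⁻¹ = q) := by
    intro q
    rw [inv_inv]
    conv_rhs => rw [← QuotientGroup.out_eq' q]
    rw [QuotientGroup.eq, inv_inv]
  refine ⟨(Quotient.out (QuotientGroup.mk g⁻¹ : SL(2, ℤ) ⧸ Γ))⁻¹, ⟨?_, (key _).2 rfl⟩, ?_⟩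
  · exact Finset.mem_image.2 ⟨_, Finset.mem_univ _, rfl⟩
  · rintro r ⟨hr, hg⟩
    obtain ⟨q, -, rfl⟩ := Finset.mem_image.1 hr
    rw [(key q).1 hg]

open Pool.Agent.Helper380.SE in
lemma part1 {Γ : Subgroup SL(2, ℤ)} {N K : ℕ} (hN : 0 < N) (hK : 0 < K)
    (hT : ∀ g : SL(2, ℤ), g * ModularGroup.T ^ N * g⁻¹ ∈ Γ) {f : ℂ → ℂ} {μ : ℝ} (hμ : 0 ≤ μ)
    (hf : IsEigenfunction Γ f μ) {R : Finset SL(2, ℤ)} (hR : Representatives Γ R) :
    sqNorm f R < ∞ ∧ 2 * sqNorm f R ≤ sqNormLow f R N K +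
      ENNReal.ofReal (3 * N ^ 2 * μ / (4 * π ^ 2 * K ^ 2)) * sqNorm f R := by
  have hd : ContDiffOn ℝ 2 f U := hf.smooth.of_le (WithTop.coe_le_coe.2 (le_top : (2 : ℕ∞) ≤ ⊤))
  have hM : sqNorm f R ≠ ∞ := L2_conv (hd.of_le (by norm_num)) hf.integrable
  exact ⟨lt_top_iff_ne_top.2 hM, mass_le3 hR hf.invariant hd hμ (pde_conv hd hf.equation) hM hN hK hT⟩

open Pool.Agent.Helper380.SE in
lemma part2 {Γ : Subgroup SL(2, ℤ)} [Γ.FiniteIndex] {N K : ℕ} (hN : 0 < N) (hK : 0 < K)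
    (hT : ∀ g : SL(2, ℤ), g * ModularGroup.T ^ N * g⁻¹ ∈ Γ) {f : ℂ → ℂ} {μ : ℝ} (hμ : 0 ≤ μ)
    (hf : IsEigenfunction Γ f μ)
    (hc : ∀ (γ : SL(2, ℤ)) (n : ℤ), |n| < K → ∀ y : ℝ, 1 / 2 < y → coefficient f γ N n y = 0)
    (h2 : 3 * N ^ 2 * μ < 8 * π ^ 2 * K ^ 2) (z : ℍ) : f (z : ℂ) = 0 := by
  obtain ⟨R, hR⟩ := exists_reps Γ
  obtain ⟨h3, h4⟩ := part1 hN hK hT hμ hf hR
  have hlow : sqNormLow f R N K = 0 := by
    unfold sqNormLow
    rw [← lintegral_zero (μ := volume.restrict (Ioi (1 / 2 : ℝ)))]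
    refine setLIntegral_congr_fun measurableSet_Ioi fun y hy => ?_
    have : ∑ r ∈ R, ∑ n ∈ Finset.Ioo (-(K : ℤ)) K, ‖coefficient f r N n y‖ ^ 2 = 0 := by
      refine Finset.sum_eq_zero fun r _ => Finset.sum_eq_zero fun n hn => ?_
      rw [Finset.mem_Ioo] at hn
      rw [hc r n (abs_lt.2 hn) y hy]
      simp
    simp [this]
  rw [hlow, zero_add] at h4
  have hK' : (0:ℝ) < K := by exact_mod_cast hK
  have hlt : ENNReal.ofReal (3 * N ^ 2 * μ / (4 * π ^ 2 * K ^ 2)) < 2 := by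
    rw [show (2 : ℝ≥0∞) = ENNReal.ofReal 2 by simp,
      ENNReal.ofReal_lt_ofReal_iff (by norm_num), div_lt_iff₀ (by positivity)]
    linarith
  have h0 : sqNorm f R = 0 := by
    by_contra hne
    have h5 := ENNReal.mul_lt_mul_left hne h3.ne hlt
    exact absurd (h4.trans_lt h5) (lt_irrefl _)
  have hd : ContDiffOn ℝ 2 f U := hf.smooth.of_le (WithTop.coe_le_coe.2 (le_top : (2 : ℕ∞) ≤ ⊤))
  exact f_zero hR hf.invariant (fun w hw => Phi_zero (hd.of_le (by norm_num)) h0 hw) z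

/-- Let `Γ` be a subgroup of `SL(2, ℤ)` of finite index and `N, K ≥ 1` such that all conjugates of
`z ↦ z + N` are in `Γ`, and let `f` be a square integrable eigenfunction on `Γ \ ℍ` with eigenvalue
`μ ≥ 0`.
(1) The squared norm of `f` is finite, and twice this norm is at most the contribution of the modes
`|n| < K` plus `3 μ N² / (4 π² K²)` times the squared norm.
(2) If the Fourier coefficients with `|n| < K` vanish at all cusps, then `f = 0` or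
`μ ≥ (8 π² / 3) (K / N)²`. -/
theorem result :
    ∀ (Γ : Subgroup SL(2, ℤ)) (N K : ℕ), Γ.FiniteIndex → 0 < N → 0 < K →
      (∀ g : SL(2, ℤ), g * ModularGroup.T ^ N * g⁻¹ ∈ Γ) →
      ∀ (f : ℂ → ℂ) (μ : ℝ), 0 ≤ μ → IsEigenfunction Γ f μ →
        (∀ R : Finset SL(2, ℤ), Representatives Γ R →
          sqNorm f R < ∞ ∧ 2 * sqNorm f R ≤ sqNormLow f R N K +
            ENNReal.ofReal (3 * N ^ 2 * μ / (4 * π ^ 2 * K ^ 2)) * sqNorm f R) ∧
        ((∀ (γ : SL(2, ℤ)) (n : ℤ), |n| < K → ∀ y : ℝ, 1 / 2 < y →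
            coefficient f γ N n y = 0) →
          (∀ z : ℍ, f (z : ℂ) = 0) ∨ 8 * π ^ 2 / 3 * (K / N) ^ 2 ≤ μ) := by
  intro Γ N K hfi hN hK hT f μ hμ hf
  refine ⟨fun R hR => part1 hN hK hT hμ hf hR, fun hc => ?_⟩
  by_cases h : 8 * π ^ 2 / 3 * (K / N) ^ 2 ≤ μ
  · exact Or.inr h
  · left
    intro z
    rw [not_le] at h
    have hN' : (0:ℝ) < N := by exact_mod_cast hN
    refine part2 hN hK hT hμ hf hc ?_ z
    have h1 := mul_lt_mul_of_pos_left h (by positivity : (0:ℝ) < 3 * N ^ 2)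
    have h2 : (3 * (N:ℝ) ^ 2) * (8 * π ^ 2 / 3 * (K / N) ^ 2) = 8 * π ^ 2 * K ^ 2 := by
      field_simp
    linarith

end Pool.Agent.Results.MP_a812b2_nt.FirstModesHalfStrip
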