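import Pool.Agent.H374S.K11
import Pool.Agent.H374S.K10

/-!
# Counting eigenvalues below 1/4 by low Fourier coefficients at height one

For a subgroup of finite index of the modular group, linearly independent square-integrable
eigenfunctions of the Laplacian with eigenvalues below 1/4 are at most as many as the pairs
(cusp, n) with `|n| < width / 32` at which not all of them have vanishing coefficient. So there are
at most `∑ (2 ⌊(h - 1) / 32⌋ + 1)` eigenvalues below 1/4, and at most `∑ 2 ⌊(h - 1) / 32⌋` of them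
on cusp forms (`count_all` in `Pool/Agent/H374S/K11.lean`).
-/

set_option autoImplicit false

open Pool.Agent.H374S

namespace Pool.Agent.Results.MP_a812b2_nt.SmallEigenvalueCount

theorem result (Γ : Subgroup (Matrix.SpecialLinearGroup (Fin 2) ℤ)) [Γ.FiniteIndex]
    (R : Finset (Matrix.SpecialLinearGroup (Fin 2) ℤ))
    (h : Matrix.SpecialLinearGroup (Fin 2) ℤ → ℕ) (hc : CuspData Γ R h)
    (m : ℕ) (μ : Fin m → ℝ) (f : Fin m → ℂ → ℂ)
    (hf : ∀ j, μ j < 1 / 4 ∧ EigFun Γ (f j) (μ j))
    (N : Finset (Matrix.SpecialLinearGroup (Fin 2) ℤ × ℤ))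
    (hN : ∀ r ∈ R, ∀ n : ℤ, 32 * |n| < h r → (r, n) ∈ N ∨ ∀ j, coef (h r) r n (f j) = 0)
    (hcard : N.card < m) :
    ∃ c : Fin m → ℂ, c ≠ 0 ∧ ∀ z : UpperHalfPlane, ∑ j, c j * f j (z : ℂ) = 0 :=
  count_gen Γ R h hc m μ f hf N hN hcard

end Pool.Agent.Results.MP_a812b2_nt.SmallEigenvalueCount
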